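import Pool.Agent.W_MP_a5b85f_al.Main

/-!
# A uniformly semi-rational group with a Sylow `2`-subgroup that is not semi-rational

`SemiRational H`: for every `x` in `H` there is an integer `m` such that every generator of the
cyclic group generated by `x` is conjugate in `H` to `x` or to `x ^ m`.

`UniformlySemiRational H`: there is one integer `m` that works for all `x` in `H`.
-/

namespace Pool.Agent.Results.MP_a5b85f_al.SylowTwoNotSemiRational

open Pool.Agent.W_MP_a5b85f_al

/-- There is a finite uniformly semi-rational group with a Sylow `2`-subgroup which, as a group in
its own right, is not semi-rational. -/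
theorem result : ∃ (G : Type) (_ : Group G), Finite G ∧ UniformlySemiRational G ∧
    ∃ P : Sylow 2 G, ¬ SemiRational P :=
  ⟨K, inferInstance, inferInstance, K_uniformlySemiRational, P, P_not_semiRational⟩

end Pool.Agent.Results.MP_a5b85f_al.SylowTwoNotSemiRational
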